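import Pool.Agent.W97.KE.Stm

set_option autoImplicit false

namespace Pool.Agent.W89.KE

open Pool.Agent.W97.KE

/-- iterates of an automorphism acting by a power on the roots of unity -/
theorem iter {k Ω : Type} [Field k] [Field Ω] [Algebra k Ω] (τ : Ω ≃ₐ[k] Ω) (M e : ℕ)
    (h : ∀ z : Ω, z ^ M = 1 → τ z = z ^ e) (s : ℕ) :
    ∀ z : Ω, z ^ M = 1 → (τ ^ s) z = z ^ e ^ s := by
  induction s with
  | zero => intro z _; simp
  | succ s ih =>
    intro z hz
    rw [pow_succ', AlgEquiv.mul_apply, ih z hz, map_pow, h z hz, ← pow_mul, pow_succ']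

/-- a power congruent to `1` -/
theorem pow_eq_self {Ω : Type} [Field Ω] (l a : ℕ) (ha : (a : ZMod l) = 1) (z : Ω)
    (hz : z ^ l = 1) : z ^ a = z := by
  have h1 : a ≡ 1 [MOD l] := by
    rw [← ZMod.natCast_eq_natCast_iff]; simpa using ha
  have h2 : z ^ a = z ^ 1 := by
    rw [pow_eq_pow_mod a hz, pow_eq_pow_mod 1 hz, h1]
  simpa using h2

/-- the exponent is divisible by `p` -/
theorem dvd_of (p q : ℕ) (hp : p.Prime) (hq : q.Prime) (hpq : q ≠ p) (i : ℕ)
    (h : q ^ i ≡ 1 [MOD p ^ (q ^ (p - 1))]) : p ∣ i := by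
  by_contra hi
  set N := q ^ (p - 1) with hN
  have hNpos : 0 < N := pow_pos hq.pos _
  have hcop : Nat.Coprime q (p ^ N) :=
    Nat.Coprime.pow_right _ ((Nat.coprime_primes hq hp).2 hpq)
  have h1 : q ^ (p ^ N).totient ≡ 1 [MOD p ^ N] := Nat.ModEq.pow_totient hcop
  have h2 : q ^ (Nat.gcd i (p ^ N).totient) ≡ 1 [MOD p ^ N] := by
    have e1 : ((q : ZMod (p ^ N))) ^ i = 1 := by
      have := (ZMod.natCast_eq_natCast_iff _ _ _).2 h
      simpa using this
    have e2 : ((q : ZMod (p ^ N))) ^ (p ^ N).totient = 1 := by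
      have := (ZMod.natCast_eq_natCast_iff _ _ _).2 h1
      simpa using this
    have e3 : ((q : ZMod (p ^ N))) ^ (Nat.gcd i (p ^ N).totient) = 1 := by
      rw [← orderOf_dvd_iff_pow_eq_one]
      exact Nat.dvd_gcd (orderOf_dvd_of_pow_eq_one e1) (orderOf_dvd_of_pow_eq_one e2)
    rw [← ZMod.natCast_eq_natCast_iff]
    simpa using e3
  have h3 : Nat.gcd i (p ^ N).totient ∣ p - 1 := by
    have h4 : Nat.gcd i (p ^ N).totient ∣ p ^ (N - 1) * (p - 1) := by
      rw [← Nat.totient_prime_pow hp hNpos]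
      exact Nat.gcd_dvd_right _ _
    refine Nat.Coprime.dvd_of_dvd_mul_left ?_ h4
    refine Nat.Coprime.pow_right _ ?_
    refine Nat.Coprime.coprime_dvd_left (Nat.gcd_dvd_left _ _) ?_
    exact ((Nat.Prime.coprime_iff_not_dvd hp).2 hi).symm
  have h5 : q ^ (p - 1) ≡ 1 [MOD p ^ N] := by
    obtain ⟨c, hc⟩ := h3
    rw [hc, pow_mul]
    simpa using h2.pow c
  have h6 : 1 < q ^ (p - 1) := Nat.one_lt_pow (by have := hp.two_le; omega) hq.one_lt
  have h7 : p ^ N ∣ q ^ (p - 1) - 1 := (Nat.modEq_iff_dvd' h6.le).1 h5.symm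
  have h8 : p ^ N ≤ q ^ (p - 1) - 1 := Nat.le_of_dvd (by omega) h7
  have h9 : N < p ^ N := Nat.lt_pow_self hp.one_lt
  omega

theorem s_expo : S_EXPO := by
  intro hR p l hp hl hpl q hq hql hqp τ hτ z hz
  obtain ⟨s, hs⟩ := hpl
  have hs' : (l - 1) / p = s := by
    rw [hs]; exact Nat.mul_div_cancel_left _ hp.pos
  rw [hs']
  rw [hs'] at hqp
  have : Fact l.Prime := ⟨hl⟩
  by_cases h : q = p
  · obtain ⟨i, hi⟩ := hR q τ l hl.one_le ((Nat.coprime_primes hl hq.out).2 (Ne.symm hql))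
    rw [iter τ l _ hi s z hz]
    refine pow_eq_self l _ ?_ z hz
    have h1 := hqp h
    subst h
    push_cast
    rw [← pow_mul, mul_comm, pow_mul, h1, one_pow]
  · have hc : Nat.Coprime (l * p ^ (q ^ (p - 1))) q := by
      refine Nat.Coprime.mul_left ((Nat.coprime_primes hl hq.out).2 (Ne.symm hql)) ?_
      exact Nat.Coprime.pow_left _ ((Nat.coprime_primes hp hq.out).2 (Ne.symm h))
    have hNpos : 0 < q ^ (p - 1) := pow_pos hq.out.pos _
    obtain ⟨i, hi⟩ := hR q τ (l * p ^ (q ^ (p - 1)))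
      (Nat.mul_pos hl.pos (pow_pos hp.pos _)) hc
    have hz' : z ^ (l * p ^ (q ^ (p - 1))) = 1 := by rw [pow_mul, hz, one_pow]
    -- a primitive root of unity
    have hpi : p ∣ i := by
      have : NeZero (p ^ (q ^ (p - 1))) := ⟨(pow_pos hp.pos _).ne'⟩
      have : NeZero ((p ^ (q ^ (p - 1)) : ℕ) : AlgebraicClosure ℚ_[q]) :=
        ⟨by exact_mod_cast (pow_pos hp.pos _).ne'⟩
      obtain ⟨ζ, hζ⟩ := HasEnoughRootsOfUnity.exists_primitiveRoot
        (AlgebraicClosure ℚ_[q]) (p ^ (q ^ (p - 1)))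
      have e1 : τ ζ = ζ := by
        obtain ⟨n, hn⟩ := Nat.exists_eq_succ_of_ne_zero hNpos.ne'
        refine hτ n ζ ?_
        rw [← Nat.succ_eq_add_one, ← hn]
        exact hζ.pow_eq_one
      have e2 : ζ ^ (l * p ^ (q ^ (p - 1))) = 1 := by
        rw [mul_comm, pow_mul, hζ.pow_eq_one, one_pow]
      have e3 : ζ ^ (q ^ i) = ζ ^ 1 := by rw [← hi ζ e2, e1, pow_one]
      have hζ0 : ζ ≠ 0 := hζ.ne_zero (pow_pos hp.pos _).ne'
      have hqi : 1 ≤ q ^ i := Nat.one_le_pow _ _ hq.out.pos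
      have e4 : ζ ^ (q ^ i - 1) = 1 := by
        have : ζ ^ (q ^ i - 1) * ζ ^ 1 = 1 * ζ ^ 1 := by
          rw [← pow_add, Nat.sub_add_cancel hqi, e3, one_mul]
        exact mul_right_cancel₀ (pow_ne_zero _ hζ0) this
      have e5 : p ^ (q ^ (p - 1)) ∣ q ^ i - 1 := hζ.dvd_of_pow_eq_one _ e4
      exact dvd_of p q hp hq.out h i ((Nat.modEq_iff_dvd' hqi).2 e5).symm
    obtain ⟨j, rfl⟩ := hpi
    rw [iter τ _ _ hi s z hz']
    refine pow_eq_self l _ ?_ z hz
    have h2 : ((q : ZMod l)) ^ (l - 1) = 1 := by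
      refine ZMod.pow_card_sub_one_eq_one ?_
      intro h0
      rw [ZMod.natCast_eq_zero_iff] at h0
      exact hql (((Nat.prime_dvd_prime_iff_eq hl hq.out).1 h0).symm)
    push_cast
    rw [← pow_mul, show p * j * s = (p * s) * j by ring, ← hs, pow_mul, h2, one_pow]

end Pool.Agent.W89.KE
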